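import Pool.Agent.W809.JS.Stm

set_option autoImplicit false

open MeasureTheory Filter Topology Set Metric Real
open Pool.Agent.Results.MP_5c297c_an.NotJessen
open Pool.Agent.W809.JS

namespace Pool.Agent.W748.JS

lemma shift_le {n : ℕ} (F : (Fin n → ℝ) → ENNReal) (a : Fin n → ℝ) {R : ℝ} (ha : ‖a‖ ≤ R) (t : ℝ) :
    ∫⁻ x in cube t 0, F (x + a) ≤ ∫⁻ x in cube (t + R) 0, F x := by
  rw [← lintegral_indicator (measurableSet_cube _ 0), ← lintegral_indicator (measurableSet_cube _ 0),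
    ← lintegral_add_right_eq_self ((cube (t + R) 0).indicator F) a]
  refine lintegral_mono fun x => ?_
  by_cases hx : x ∈ cube t (0 : Fin n → ℝ)
  · have hx2 : x + a ∈ cube (t + R) (0 : Fin n → ℝ) := by
      intro j
      have h1 := hx j
      have h2 : |a j| ≤ R := (norm_le_pi_norm a j).trans ha
      simp only [Pi.zero_apply, sub_zero, Pi.add_apply] at h1 ⊢
      have h3 := abs_add_le (x j) (a j)
      linarith
    rw [indicator_of_mem hx, indicator_of_mem hx2]
  · rw [indicator_of_notMem hx]; exact zero_le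

lemma measurable_cb {n : ℕ} {α : Type} [MeasurableSpace α] {Φ : α × (Fin n → ℝ) → ENNReal} (hΦ : Measurable Φ)
    (r : ℝ) : Measurable (fun q : (Fin n → ℝ) × α => ∫⁻ x in closedBall q.1 r, Φ (q.2, x)) := by
  have hS : MeasurableSet {z : ((Fin n → ℝ) × α) × (Fin n → ℝ) | dist z.2 z.1.1 ≤ r} :=
    measurableSet_le (by fun_prop) measurable_const
  have hΨ : Measurable (fun z : ((Fin n → ℝ) × α) × (Fin n → ℝ) => Φ (z.1.2, z.2)) := by fun_prop
  have h := (hΨ.indicator hS).lintegral_prod_right' (ν := (volume : Measure (Fin n → ℝ)))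
  have e : (fun q : (Fin n → ℝ) × α => ∫⁻ x in closedBall q.1 r, Φ (q.2, x)) =
      fun q : (Fin n → ℝ) × α => ∫⁻ x, ({z : ((Fin n → ℝ) × α) × (Fin n → ℝ) | dist z.2 z.1.1 ≤ r}.indicator
        (fun z => Φ (z.1.2, z.2))) (q, x) := by
    funext q
    rw [← lintegral_indicator measurableSet_closedBall]
    refine lintegral_congr fun x => ?_
    by_cases hx : x ∈ closedBall q.1 r
    · rw [indicator_of_mem hx, indicator_of_mem (show (q, x) ∈ {z : ((Fin n → ℝ) × α) × (Fin n → ℝ) | dist z.2 z.1.1 ≤ r} from hx)]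
    · rw [indicator_of_notMem hx, indicator_of_notMem (show (q, x) ∉ {z : ((Fin n → ℝ) × α) × (Fin n → ℝ) | dist z.2 z.1.1 ≤ r} from hx)]
  rw [e]
  exact h

lemma box_swap (hBOX : S_BOX) {n : ℕ} {r k : ℝ} (hr : 0 < r) (hk : r < k) (I : Set ℝ)
    {Φ : ℝ × (Fin n → ℝ) → ENNReal} (hΦ : Measurable Φ) :
    (ENNReal.ofReal ((2 * r) ^ n) * ∫⁻ t in I, ∫⁻ x in cube (k - r) 0, Φ (t, x)
      ≤ ∫⁻ h in cube k (0 : Fin n → ℝ), ∫⁻ t in I, ∫⁻ x in closedBall h r, Φ (t, x)) ∧
    (∫⁻ h in cube k (0 : Fin n → ℝ), ∫⁻ t in I, ∫⁻ x in closedBall h r, Φ (t, x)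
      ≤ ENNReal.ofReal ((2 * r) ^ n) * ∫⁻ t in I, ∫⁻ x in cube (k + r) 0, Φ (t, x)) := by
  have hsw : ∫⁻ h in cube k (0 : Fin n → ℝ), ∫⁻ t in I, ∫⁻ x in closedBall h r, Φ (t, x) =
      ∫⁻ t in I, ∫⁻ h in cube k (0 : Fin n → ℝ), ∫⁻ x in closedBall h r, Φ (t, x) :=
    lintegral_lintegral_swap (measurable_cb hΦ r).aemeasurable
  rw [hsw, ← lintegral_const_mul' _ _ ENNReal.ofReal_ne_top, ← lintegral_const_mul' _ _ ENNReal.ofReal_ne_top]
  have hΦt : ∀ t, Measurable (fun x => Φ (t, x)) := fun t => by fun_prop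
  exact ⟨lintegral_mono fun t => (hBOX n r k hr hk _ (hΦt t)).1,
    lintegral_mono fun t => (hBOX n r k hr hk _ (hΦt t)).2⟩

lemma div_ineq {a b R W K P : ENNReal} (hR0 : R ≠ 0) (hR : R ≠ ⊤) (hW0 : W ≠ 0) (hW : W ≠ ⊤)
    (h : P * (R * a) ≤ R * b + K * W) : P * (a / W) ≤ b / W + K / R := by
  have e1 : P * (a / W) = (P * (R * a)) / (R * W) := by
    rw [div_eq_mul_inv, div_eq_mul_inv, ENNReal.mul_inv (Or.inl hR0) (Or.inl hR)]
    calc P * (a * W⁻¹) = P * (a * W⁻¹) * (R * R⁻¹) := by rw [ENNReal.mul_inv_cancel hR0 hR, mul_one]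
      _ = _ := by ring
  have e2 : (R * b + K * W) / (R * W) = b / W + K / R := by
    rw [ENNReal.add_div]
    congr 1
    · exact ENNReal.mul_div_mul_left _ _ hR0 hR
    · exact ENNReal.mul_div_mul_right _ _ hW0 hW
  rw [e1, ← e2]
  exact ENNReal.div_le_div_right h _

lemma continuous_yt {n : ℕ} (p : Fin n → ℝ) (i j : Fin n) : Continuous (yt p i j) := by
  refine continuous_pi fun k => ?_
  unfold yt
  split_ifs <;> fun_prop

theorem avg : S_BOX → S_AVG := by
  intro hBOX n i j hij f p r M φ hr hr4 hM hHol hφ hlim B hB ε κ hε hεr hκ hmain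
  obtain ⟨hfm, -, hfb⟩ := hHol
  set v : ℝ → Fin n → ℂ := fun θ => circleMap 0 ε θ • (Pi.single i 1 : Fin n → ℂ) with hv
  have hvn : ∀ θ, ‖v θ‖ = ε := by
    intro θ
    rw [hv]
    simp only
    rw [norm_circle_smul hε.le]
    have : ‖(Pi.single i 1 : Fin n → ℂ)‖ = 1 := by
      rw [Pi.norm_single, norm_one]
    rw [this, mul_one]
  have hvc : Continuous v := by
    rw [hv]
    unfold circleMap
    fun_prop
  -- the heights
  have hy1 : ∀ t ∈ Icc 0 (r / 2), yt p i j t ∈ closedBall p r := by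
    intro t ht
    rw [mem_closedBall, dist_pi_le_iff hr.le]
    intro k
    have h1 : dist (yt p i j t k) (p k) = |(if k = i then t ^ 2 else 0) + (if k = j then t else 0)| := by
      rw [Real.dist_eq]
      congr 1
      unfold yt
      ring
    rw [h1]
    have h2 : 0 ≤ (if k = i then t ^ 2 else (0 : ℝ)) ∧ (if k = i then t ^ 2 else (0 : ℝ)) ≤ r / 16 := by
      split_ifs
      · refine ⟨by positivity, ?_⟩
        nlinarith [ht.1, ht.2]
      · exact ⟨le_rfl, by positivity⟩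
    have h3 : 0 ≤ (if k = j then t else (0 : ℝ)) ∧ (if k = j then t else (0 : ℝ)) ≤ r / 2 := by
      split_ifs
      · exact ⟨ht.1, ht.2⟩
      · exact ⟨le_rfl, by positivity⟩
    rw [abs_of_nonneg (add_nonneg h2.1 h3.1)]
    linarith [h2.2, h3.2]
  have hy2 : ∀ t ∈ Icc 0 (r / 2), yt p i j t ∈ closedBall p (2 * r) := fun t ht =>
    closedBall_subset_closedBall (by linarith) (hy1 t ht)
  have hy3 : ∀ t ∈ Icc 0 (r / 2), ∀ θ, yt p i j t + imPart (v θ) ∈ closedBall p (2 * r) := by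
    intro t ht θ
    rw [mem_closedBall, dist_eq_norm]
    have h1 := hy1 t ht
    rw [mem_closedBall, dist_eq_norm] at h1
    calc ‖yt p i j t + imPart (v θ) - p‖ = ‖(yt p i j t - p) + imPart (v θ)‖ := by congr 1; abel
      _ ≤ ‖yt p i j t - p‖ + ‖imPart (v θ)‖ := norm_add_le _ _
      _ ≤ r + ε := add_le_add h1 ((norm_imPart_le _).trans (hvn θ).le)
      _ ≤ 2 * r := by linarith
  -- (a)
  have hbd : ∀ y ∈ closedBall p (2 * r), ∀ x, ‖f (cpt x y)‖ ≤ Real.exp M := by
    intro y hy x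
    apply hfb
    show imPart (cpt x y) ∈ ball p (40 * r)
    rw [imPart_cpt]
    exact closedBall_subset_ball (by linarith) hy
  have hR0 : (0 : ℝ) < (2 * r) ^ n := by positivity
  have hRne : ENNReal.ofReal ((2 * r) ^ n) ≠ 0 := (ENNReal.ofReal_pos.2 hR0).ne'
  have hRnt : ENNReal.ofReal ((2 * r) ^ n) ≠ ⊤ := ENNReal.ofReal_ne_top
  have hDm : ∀ y, Measurable (fun x : Fin n → ℝ => dfc M (f (cpt x y))) := fun y =>
    (measurable_dfc M).comp (hfm.comp (measurable_cpt_left y))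
  have ha : ∀ y ∈ closedBall p (2 * r), ∀ T : ℝ, r < T →
      ENNReal.ofReal ((2 * r) ^ n) * ∫⁻ x in cube (T - r) 0, dfc M (f (cpt x y)) ≤
        ENNReal.ofReal B * ENNReal.ofReal ((2 * T) ^ n) := by
    intro y hy T hT
    refine (hBOX n r T hr hT _ (hDm y)).1.trans ?_
    calc ∫⁻ h in cube T (0 : Fin n → ℝ), ∫⁻ x in closedBall h r, dfc M (f (cpt x y))
        ≤ ∫⁻ _ in cube T (0 : Fin n → ℝ), ENNReal.ofReal B := lintegral_mono fun h => hB h y hy
      _ = _ := by rw [setLIntegral_const, volume_cube (hr.trans hT)]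
  have hfin : ∀ y ∈ closedBall p (2 * r), ∀ T : ℝ, ∫⁻ x in cube T 0, dfc M (f (cpt x y)) < ⊤ := by
    intro y hy T
    have h1 := ha y hy (max T 1 + r) (by have := le_max_right T 1; linarith)
    rw [add_sub_cancel_right] at h1
    have h2 : ∫⁻ x in cube (max T 1) 0, dfc M (f (cpt x y)) < ⊤ := by
      by_contra hcon
      rw [not_lt, top_le_iff] at hcon
      rw [hcon, ENNReal.mul_top hRne, top_le_iff] at h1
      exact ENNReal.mul_ne_top ENNReal.ofReal_ne_top ENNReal.ofReal_ne_top h1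
    refine lt_of_le_of_lt (lintegral_mono_set ?_) h2
    intro x hx k
    exact lt_of_lt_of_le (hx k) (le_max_left _ _)
  have hdef : ∀ y ∈ closedBall p (2 * r), ∀ T : ℝ,
      ∫⁻ x in cube T 0, dfc M (f (cpt x y)) = defV f M T y := fun y hy T =>
    defV_eq_of_lt_top hfm M y T (hfin y hy T)
  have hVfin : ∀ y ∈ closedBall p (2 * r), ∀ T : ℝ, defV f M T y < ⊤ := by
    intro y hy T
    rw [← hdef y hy T]
    exact hfin y hy T
  set D : ENNReal := ENNReal.ofReal B * ENNReal.ofReal (2 ^ n) / ENNReal.ofReal ((2 * r) ^ n) with hD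
  have hDfin : D ≠ ⊤ := by
    rw [hD]
    exact ENNReal.div_ne_top (ENNReal.mul_ne_top ENNReal.ofReal_ne_top ENNReal.ofReal_ne_top) hRne
  have hDb : ∀ y ∈ closedBall p (2 * r), ∀ s : ℝ, s ≤ r + ε → ∀ k : ℕ, 1 ≤ k →
      defV f M (k + s) y / ENNReal.ofReal ((2 * (k : ℝ)) ^ n) ≤ D := by
    intro y hy s hs k hk
    have hk1 : (1 : ℝ) ≤ k := by exact_mod_cast hk
    have hW0 : (0 : ℝ) < (2 * (k : ℝ)) ^ n := by positivity
    have h1 := ha y hy (k + (r + ε) + r) (by linarith)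
    rw [add_sub_cancel_right, hdef y hy] at h1
    have h2 : defV f M (k + s) y ≤ defV f M (k + (r + ε)) y := defV_mono f M y (by linarith)
    have h3 : (2 * ((k : ℝ) + (r + ε) + r)) ^ n ≤ 2 ^ n * (2 * (k : ℝ)) ^ n := by
      rw [← mul_pow]
      apply pow_le_pow_left₀ (by positivity)
      linarith
    rw [ENNReal.div_le_iff (ENNReal.ofReal_pos.2 hW0).ne' ENNReal.ofReal_ne_top, hD]
    refine h2.trans ?_
    rw [mul_comm] at h1
    have h4 : defV f M (k + (r + ε)) y ≤
        (ENNReal.ofReal B * ENNReal.ofReal ((2 * ((k : ℝ) + (r + ε) + r)) ^ n)) / ENNReal.ofReal ((2 * r) ^ n) := by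
      rw [ENNReal.le_div_iff_mul_le (Or.inl hRne) (Or.inl hRnt)]
      exact h1
    refine h4.trans ?_
    calc (ENNReal.ofReal B * ENNReal.ofReal ((2 * ((k : ℝ) + (r + ε) + r)) ^ n)) / ENNReal.ofReal ((2 * r) ^ n)
        ≤ (ENNReal.ofReal B * (ENNReal.ofReal (2 ^ n) * ENNReal.ofReal ((2 * (k : ℝ)) ^ n))) / ENNReal.ofReal ((2 * r) ^ n) := by
          apply ENNReal.div_le_div_right
          rw [← ENNReal.ofReal_mul (p := 2 ^ n) (by positivity)]
          exact mul_le_mul_right (ENNReal.ofReal_le_ofReal h3) _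
      _ = _ := by
          rw [div_eq_mul_inv, div_eq_mul_inv]; ring
  have hlimV : ∀ y ∈ closedBall p (2 * r), ∀ s : ℝ,
      Tendsto (fun k : ℕ => defV f M (k + s) y / ENNReal.ofReal ((2 * (k : ℝ)) ^ n)) atTop
        (𝓝 (ENNReal.ofReal (M - φ y))) := fun y hy s =>
    tendsto_defV hfm hM (hbd y hy) (hVfin y hy) (hlim y hy) s
  -- (b)
  have hycont := continuous_yt p i j
  have hGm : Measurable (fun q : ℝ × (Fin n → ℝ) => dfc M (f (cpt q.2 (yt p i j q.1)))) := by
    refine (measurable_dfc M).comp (hfm.comp ?_)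
    have : Continuous (fun q : ℝ × (Fin n → ℝ) => cpt q.2 (yt p i j q.1)) :=
      continuous_cpt.comp (continuous_snd.prodMk (hycont.comp continuous_fst))
    exact this.measurable
  have hHm : Measurable (fun q : (ℝ × (Fin n → ℝ)) × ℝ => dfc M (f (cpt q.1.2 (yt p i j q.1.1) + v q.2))) := by
    refine (measurable_dfc M).comp (hfm.comp ?_)
    have : Continuous (fun q : (ℝ × (Fin n → ℝ)) × ℝ => cpt q.1.2 (yt p i j q.1.1) + v q.2) := by
      refine Continuous.add ?_ (hvc.comp continuous_snd)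
      exact continuous_cpt.comp ((continuous_snd.comp continuous_fst).prodMk
        (hycont.comp (continuous_fst.comp continuous_fst)))
    exact this.measurable
  have hΦ2 : Measurable (fun q : ℝ × (Fin n → ℝ) => ∫⁻ θ in Ioc 0 (2 * π),
      dfc M (f (cpt q.2 (yt p i j q.1) + v θ))) := hHm.lintegral_prod_right'
  have key : ∀ k : ℕ, 1 ≤ k →
      ENNReal.ofReal (2 * π) * (∫⁻ t in Icc 0 (r / 2), defV f M (k + (-r)) (yt p i j t) /
        ENNReal.ofReal ((2 * (k : ℝ)) ^ n)) ≤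
      (∫⁻ t in Icc 0 (r / 2), ∫⁻ θ in Ioc 0 (2 * π), defV f M (k + (r + ε)) (yt p i j t + imPart (v θ)) /
        ENNReal.ofReal ((2 * (k : ℝ)) ^ n)) + ENNReal.ofReal (κ / (2 * r) ^ n) := by
    intro k hk
    have hk1 : (1 : ℝ) ≤ k := by exact_mod_cast hk
    have hkr : r < (k : ℝ) := by linarith
    have hW0 : (0 : ℝ) < (2 * (k : ℝ)) ^ n := by positivity
    have hWne : ENNReal.ofReal ((2 * (k : ℝ)) ^ n) ≠ 0 := (ENNReal.ofReal_pos.2 hW0).ne'
    have h1 : ∫⁻ h in cube (k : ℝ) (0 : Fin n → ℝ), ENNReal.ofReal (2 * π) *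
        ∫⁻ t in Icc 0 (r / 2), ∫⁻ x in closedBall h r, dfc M (f (cpt x (yt p i j t))) ≤
        ∫⁻ h in cube (k : ℝ) (0 : Fin n → ℝ), ((∫⁻ t in Icc 0 (r / 2), ∫⁻ x in closedBall h r,
          ∫⁻ θ in Ioc 0 (2 * π), dfc M (f (cpt x (yt p i j t) + v θ))) + ENNReal.ofReal κ) :=
      lintegral_mono fun h => hmain h
    rw [lintegral_const_mul' _ _ ENNReal.ofReal_ne_top, lintegral_add_right _ measurable_const,
      setLIntegral_const, volume_cube (hr.trans hkr)] at h1
    have h2 := (box_swap hBOX hr hkr (Icc 0 (r / 2)) hGm).1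
    have h3 := (box_swap hBOX hr hkr (Icc 0 (r / 2)) hΦ2).2
    have h4 : ∫⁻ t in Icc 0 (r / 2), defV f M (k + (-r)) (yt p i j t) ≤
        ∫⁻ t in Icc 0 (r / 2), ∫⁻ x in cube ((k : ℝ) - r) 0, dfc M (f (cpt x (yt p i j t))) := by
      refine lintegral_mono fun t => ?_
      rw [← sub_eq_add_neg]
      exact lintegral_mono fun x => dfc0_le _ _
    have h5 : ∫⁻ t in Icc 0 (r / 2), ∫⁻ x in cube ((k : ℝ) + r) 0, ∫⁻ θ in Ioc 0 (2 * π),
        dfc M (f (cpt x (yt p i j t) + v θ)) ≤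
        ∫⁻ t in Icc 0 (r / 2), ∫⁻ θ in Ioc 0 (2 * π), defV f M (k + (r + ε)) (yt p i j t + imPart (v θ)) := by
      refine setLIntegral_mono' measurableSet_Icc fun t ht => ?_
      have hsw : ∫⁻ x in cube ((k : ℝ) + r) (0 : Fin n → ℝ), ∫⁻ θ in Ioc 0 (2 * π),
          dfc M (f (cpt x (yt p i j t) + v θ)) = ∫⁻ θ in Ioc 0 (2 * π),
            ∫⁻ x in cube ((k : ℝ) + r) (0 : Fin n → ℝ), dfc M (f (cpt x (yt p i j t) + v θ)) := by
        refine lintegral_lintegral_swap ?_
        have : Measurable (fun q : (Fin n → ℝ) × ℝ => dfc M (f (cpt q.1 (yt p i j t) + v q.2))) := by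
          have h6 : Measurable (fun q : (Fin n → ℝ) × ℝ => (((t, q.1), q.2) : (ℝ × (Fin n → ℝ)) × ℝ)) := by fun_prop
          exact hHm.comp h6
        exact this.aemeasurable
      rw [hsw]
      refine lintegral_mono fun θ => ?_
      have h7 : ∀ x, dfc M (f (cpt x (yt p i j t) + v θ)) =
          (fun x => dfc M (f (cpt x (yt p i j t + imPart (v θ))))) (x + rePart (v θ)) := by
        intro x
        simp only
        rw [cpt_add_vec]
      simp_rw [h7]
      rw [← hdef _ (hy3 t ht θ), ← add_assoc]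
      exact shift_le _ _ ((norm_rePart_le _).trans (hvn θ).le) _
    have h8 : ENNReal.ofReal (2 * π) * (ENNReal.ofReal ((2 * r) ^ n) *
        ∫⁻ t in Icc 0 (r / 2), defV f M (k + (-r)) (yt p i j t)) ≤
        ENNReal.ofReal ((2 * r) ^ n) * (∫⁻ t in Icc 0 (r / 2), ∫⁻ θ in Ioc 0 (2 * π),
          defV f M (k + (r + ε)) (yt p i j t + imPart (v θ))) +
          ENNReal.ofReal κ * ENNReal.ofReal ((2 * (k : ℝ)) ^ n) := by
      calc ENNReal.ofReal (2 * π) * (ENNReal.ofReal ((2 * r) ^ n) *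
            ∫⁻ t in Icc 0 (r / 2), defV f M (k + (-r)) (yt p i j t))
          ≤ ENNReal.ofReal (2 * π) * (ENNReal.ofReal ((2 * r) ^ n) *
            ∫⁻ t in Icc 0 (r / 2), ∫⁻ x in cube ((k : ℝ) - r) 0, dfc M (f (cpt x (yt p i j t)))) := by
            gcongr
        _ ≤ _ := mul_le_mul_right h2 _
        _ ≤ _ := h1
        _ ≤ _ := by
            refine add_le_add (h3.trans ?_) le_rfl
            exact mul_le_mul_right h5 _
    have h9 := div_ineq hRne hRnt hWne ENNReal.ofReal_ne_top h8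
    have e1 : ∫⁻ t in Icc 0 (r / 2), defV f M (k + (-r)) (yt p i j t) / ENNReal.ofReal ((2 * (k : ℝ)) ^ n) =
        (∫⁻ t in Icc 0 (r / 2), defV f M (k + (-r)) (yt p i j t)) / ENNReal.ofReal ((2 * (k : ℝ)) ^ n) := by
      simp_rw [div_eq_mul_inv]
      exact lintegral_mul_const' _ _ (ENNReal.inv_ne_top.2 hWne)
    have e2 : ∫⁻ t in Icc 0 (r / 2), ∫⁻ θ in Ioc 0 (2 * π), defV f M (k + (r + ε)) (yt p i j t + imPart (v θ)) /
        ENNReal.ofReal ((2 * (k : ℝ)) ^ n) = (∫⁻ t in Icc 0 (r / 2), ∫⁻ θ in Ioc 0 (2 * π),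
          defV f M (k + (r + ε)) (yt p i j t + imPart (v θ))) / ENNReal.ofReal ((2 * (k : ℝ)) ^ n) := by
      simp_rw [div_eq_mul_inv]
      simp_rw [lintegral_mul_const' _ _ (ENNReal.inv_ne_top.2 hWne)]
    rw [e1, e2, ENNReal.ofReal_div_of_pos hR0]
    exact h9
  -- (c)
  have hL : Tendsto (fun k : ℕ => ∫⁻ t in Icc 0 (r / 2), defV f M (k + (-r)) (yt p i j t) /
      ENNReal.ofReal ((2 * (k : ℝ)) ^ n)) atTop (𝓝 (∫⁻ t in Icc 0 (r / 2), ENNReal.ofReal (M - φ (yt p i j t)))) := by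
    refine tendsto_lintegral_filter_of_dominated_convergence (fun _ => D) ?_ ?_ ?_ ?_
    · refine Eventually.of_forall fun k => ?_
      refine Measurable.div_const ?_ _
      unfold defV
      have h : Measurable (fun q : ℝ × (Fin n → ℝ) => dfc0 M (f (cpt q.2 (yt p i j q.1)))) := by
        refine (measurable_dfc0 M).comp (hfm.comp ?_)
        have : Continuous (fun q : ℝ × (Fin n → ℝ) => cpt q.2 (yt p i j q.1)) :=
          continuous_cpt.comp (continuous_snd.prodMk (hycont.comp continuous_fst))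
        exact this.measurable
      exact h.lintegral_prod_right'
    · filter_upwards [eventually_ge_atTop 1] with k hk
      refine (ae_restrict_iff' measurableSet_Icc).2 (ae_of_all _ fun t ht => ?_)
      exact hDb _ (hy2 t ht) _ (by linarith) k hk
    · rw [lintegral_const, Measure.restrict_apply_univ]
      exact ENNReal.mul_ne_top hDfin (by simp)
    · refine (ae_restrict_iff' measurableSet_Icc).2 (ae_of_all _ fun t ht => ?_)
      exact hlimV _ (hy2 t ht) _
  have hRt : Tendsto (fun k : ℕ => ∫⁻ t in Icc 0 (r / 2), ∫⁻ θ in Ioc 0 (2 * π),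
      defV f M (k + (r + ε)) (yt p i j t + imPart (v θ)) / ENNReal.ofReal ((2 * (k : ℝ)) ^ n)) atTop
      (𝓝 (∫⁻ t in Icc 0 (r / 2), ∫⁻ θ in Ioc 0 (2 * π),
        ENNReal.ofReal (M - φ (yt p i j t + imPart (v θ))))) := by
    have hm : ∀ k : ℕ, Measurable (fun q : ℝ × ℝ => defV f M (k + (r + ε)) (yt p i j q.1 + imPart (v q.2)) /
        ENNReal.ofReal ((2 * (k : ℝ)) ^ n)) := by
      intro k
      refine Measurable.div_const ?_ _
      unfold defV
      have h : Measurable (fun q : (ℝ × ℝ) × (Fin n → ℝ) =>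
          dfc0 M (f (cpt q.2 (yt p i j q.1.1 + imPart (v q.1.2))))) := by
        refine (measurable_dfc0 M).comp (hfm.comp ?_)
        have : Continuous (fun q : (ℝ × ℝ) × (Fin n → ℝ) => cpt q.2 (yt p i j q.1.1 + imPart (v q.1.2))) :=
          continuous_cpt.comp (continuous_snd.prodMk
            ((hycont.comp (continuous_fst.comp continuous_fst)).add
              (continuous_imPart.comp (hvc.comp (continuous_snd.comp continuous_fst)))))
        exact this.measurable
      exact h.lintegral_prod_right'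
    have hm2 : Measurable (fun q : ℝ × ℝ => ENNReal.ofReal (M - φ (yt p i j q.1 + imPart (v q.2)))) := by
      have : Continuous (fun q : ℝ × ℝ => M - φ (yt p i j q.1 + imPart (v q.2))) :=
        continuous_const.sub (hφ.comp ((hycont.comp continuous_fst).add
              (continuous_imPart.comp (hvc.comp continuous_snd))))
      exact this.measurable.ennreal_ofReal
    have hprod := tendsto_lintegral_filter_of_dominated_convergence (l := atTop)
      (μ := (volume.restrict (Icc (0 : ℝ) (r / 2))).prod (volume.restrict (Ioc (0 : ℝ) (2 * π))))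
      (F := fun (k : ℕ) (q : ℝ × ℝ) => defV f M (k + (r + ε)) (yt p i j q.1 + imPart (v q.2)) /
        ENNReal.ofReal ((2 * (k : ℝ)) ^ n))
      (f := fun q : ℝ × ℝ => ENNReal.ofReal (M - φ (yt p i j q.1 + imPart (v q.2)))) (fun _ => D)
      (Eventually.of_forall hm) ?_ ?_ ?_
    · rw [lintegral_prod _ hm2.aemeasurable] at hprod
      refine hprod.congr fun k => ?_
      rw [lintegral_prod _ (hm k).aemeasurable]
    · filter_upwards [eventually_ge_atTop 1] with k hk
      rw [Measure.prod_restrict]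
      refine (ae_restrict_iff' (measurableSet_Icc.prod measurableSet_Ioc)).2 (ae_of_all _ fun q hq => ?_)
      exact hDb _ (hy3 q.1 hq.1 q.2) _ le_rfl k hk
    · rw [lintegral_const, Measure.prod_restrict, Measure.restrict_apply_univ, Measure.prod_prod]
      exact ENNReal.mul_ne_top hDfin (ENNReal.mul_ne_top
        (by rw [Real.volume_Icc]; exact ENNReal.ofReal_ne_top)
        (by rw [Real.volume_Ioc]; exact ENNReal.ofReal_ne_top))
    · rw [Measure.prod_restrict]
      refine (ae_restrict_iff' (measurableSet_Icc.prod measurableSet_Ioc)).2 (ae_of_all _ fun q hq => ?_)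
      exact hlimV _ (hy3 q.1 hq.1 q.2) _
  refine le_of_tendsto_of_tendsto (ENNReal.Tendsto.const_mul hL (Or.inr ENNReal.ofReal_ne_top))
    (hRt.add_const _) ?_
  filter_upwards [eventually_ge_atTop 1] with k hk
  exact key k hk

end Pool.Agent.W748.JS
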